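import Mathlib
import Pool.Agent.TH999.GCR.Rate
import Pool.Agent.H399R2.Abs

/-!
# The gcd recursion with `n ^ p - 1`: prime or a descent of at most half the maximal length

The potential `2 k + a(k)` grows by `1` per step between jumps, and a jump by `g` lowers it by
`g - 1`; the waiting time for a jump divisible by the prime `r` is at most `r`. A new level is
passed only at a jump by a prime `g = r` after a waiting time exactly `r`, and then the level lies
in one of at most `min (p, r - 1)` residue classes modulo `r` (one for each root of `z ^ p = 1`).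
By a sieve most levels cost a long time, so that the potential cannot grow linearly.
-/

set_option autoImplicit false

namespace Pool.Agent.Results.MP_e7655a_nt.HalfDescent

open Finset Pool.Agent.H399R2 Pool.Agent.TH999.GCR

/-- the roots of `z ^ p = 1` modulo `r` -/
def roots (p r : ℕ) : Finset ℕ := (range r).filter (fun z : ℕ => z ^ p ≡ 1 [MOD r])

lemma card_roots (p r : ℕ) (hp : p.Prime) (hr : r.Prime) : #(roots p r) ≤ ww p r := by
  unfold ww
  split_ifs with h
  · have h1 : roots p r ⊆ (range r).erase 0 := by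
      intro z hz
      unfold roots at hz
      rw [mem_filter] at hz
      rw [mem_erase]
      refine ⟨?_, hz.1⟩
      rintro rfl
      have h2 := hz.2
      rw [zero_pow hp.ne_zero] at h2
      have h3 : (1 : ℕ) % r = 0 := by
        have := h2
        unfold Nat.ModEq at this
        rw [Nat.zero_mod] at this
        exact this.symm
      rw [Nat.mod_eq_of_lt hr.one_lt] at h3
      omega
    refine (card_le_card h1).trans ?_
    rw [card_erase_of_mem (mem_range.mpr hr.pos), card_range]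
  · have : Fact r.Prime := ⟨hr⟩
    have h1 : #(roots p r) ≤ #((Polynomial.nthRoots p (1 : ZMod r)).toFinset) := by
      apply card_le_card_of_injOn (fun z : ℕ => (z : ZMod r))
      · intro z hz
        unfold roots at hz
        rw [mem_coe, mem_filter] at hz
        rw [mem_coe, Multiset.mem_toFinset, Polynomial.mem_nthRoots hp.pos]
        have h2 := (ZMod.natCast_eq_natCast_iff _ _ _).mpr hz.2
        push_cast at h2
        exact h2
      · intro z hz z' hz' hzz'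
        unfold roots at hz hz'
        rw [mem_coe, mem_filter, mem_range] at hz hz'
        have h2 := (ZMod.natCast_eq_natCast_iff z z' r).mp hzz'
        unfold Nat.ModEq at h2
        rwa [Nat.mod_eq_of_lt hz.1, Nat.mod_eq_of_lt hz'.1] at h2
    exact h1.trans ((Multiset.toFinset_card_le _).trans (Polynomial.card_nthRoots p 1))

/-- the classes of the levels which can be passed at a jump by `r` -/
def R (p c r : ℕ) : Finset ℕ := (roots p r).image (fun z => (2 * z + (r * c - c)) % r)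

lemma card_R (p c r : ℕ) (hp : p.Prime) (hr : r.Prime) : #(R p c r) ≤ ww p r :=
  card_image_le.trans (card_roots p r hp hr)

lemma V_sub (p k r : ℕ) : (r : ℤ) ∣ (((k + r : ℕ) : ℤ) ^ p - 1) - ((k : ℤ) ^ p - 1) := by
  have : (((k + r : ℕ) : ℤ) ^ p - 1) - ((k : ℤ) ^ p - 1) =
      ((k + r : ℕ) : ℤ) ^ p - (k : ℤ) ^ p := by ring
  rw [this]
  refine dvd_trans ?_ (sub_dvd_pow_sub_pow ((k + r : ℕ) : ℤ) (k : ℤ) p)
  push_cast
  simp

/-- a descent is good -/
lemma good (p : ℕ) (hp : p.Prime) (n n' : ℕ) (x : ℕ → ℕ)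
    (hseg : Seg x (fun k : ℕ => (k : ℤ) ^ p - 1) (n + 1) n') :
    Good x (fun k : ℕ => (k : ℤ) ^ p - 1) (n + 1) n' 1 p (fun r => r)
      (R p ((1 + 1) * (n + 1) + 1 * x (n + 1))) := by
  refine ⟨hseg, fun r hr => hr.pos, fun r _ => dvd_rfl, ?_, ?_, fun r hr => card_R _ _ r hp hr⟩
  · intro r hr k hk h
    have h' : (r : ℤ) ∣ ((k + r : ℕ) : ℤ) ^ p - 1 := h
    have h4 := dvd_sub h' (V_sub p k r)
    simpa using h4
  · intro r hr
    right
    refine ⟨by omega, ?_⟩
    intro k hk hV j i hi hmod _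
    obtain rfl : i = 0 := by omega
    set c := (1 + 1) * (n + 1) + 1 * x (n + 1) with hc
    have hV' : k ^ p ≡ 1 [MOD r] := by
      have h1 : (r : ℤ) ∣ (k : ℤ) ^ p - 1 := hV
      have h2 : ((1 : ℕ) : ℤ) ≡ ((k ^ p : ℕ) : ℤ) [ZMOD r] := by
        rw [Int.modEq_iff_dvd]
        push_cast
        exact h1
      exact ((Int.natCast_modEq_iff).mp h2).symm
    unfold R
    rw [mem_image]
    refine ⟨k % r, ?_, ?_⟩
    · unfold roots
      rw [mem_filter, mem_range]
      exact ⟨Nat.mod_lt _ hr.pos, ((Nat.mod_modEq k r).pow p).trans hV'⟩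
    · have hrc : c ≤ r * c := Nat.le_mul_of_pos_left _ hr.pos
      have h1 : 2 * (k % r) + (r * c - c) ≡ 2 * k + (r * c - c) [MOD r] :=
        Nat.ModEq.add_right _ (Nat.ModEq.mul_left _ (Nat.mod_modEq k r))
      have h2 : 2 * k + (r * c - c) ≡ c + j + (r * c - c) [MOD r] := by
        apply Nat.ModEq.add_right
        have h3 := hmod
        rw [one_mul, Nat.add_zero] at h3
        exact h3
      have h3 : c + j + (r * c - c) = j + r * c := by omega
      rw [h3] at h2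
      have h4 : j + r * c ≡ j [MOD r] := Nat.add_mul_mod_self_left _ _ _
      exact (h1.trans h2).trans h4

/-- a prime factor of `(n'+1)^p - 1` bounds the length of the final run -/
lemma detect (p n' l : ℕ) (x : ℕ → ℕ) (hle : l ≤ n')
    (htr : ∀ i, l ≤ i → i < n' → Int.gcd (x i) (((i + 1 : ℕ) : ℤ) ^ p - 1) = 1)
    (hrun : ∀ k, l ≤ k → k ≤ n' → x k = n' - k) :
    ∀ r : ℕ, r.Prime → (r : ℤ) ∣ ((n' + 1 : ℕ) : ℤ) ^ p - 1 → n' - l < r := by
  intro r hr hdvd
  by_contra hcon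
  push Not at hcon
  have hr0 := hr.pos
  have h1 := htr (n' - r) (by omega) (by omega)
  have h3 : x (n' - r) = r := by
    rw [hrun (n' - r) (by omega) (by omega)]
    omega
  rw [h3] at h1
  have h4 : (r : ℤ) ∣ ((n' - r + 1 : ℕ) : ℤ) ^ p - 1 := by
    have h5 := V_sub p (n' - r + 1) r
    have e1 : n' - r + 1 + r = n' + 1 := by omega
    rw [e1] at h5
    have h6 := dvd_sub hdvd h5
    simpa using h6
  have h5 : (r : ℤ) ∣ (Int.gcd (r : ℤ) (((n' - r + 1 : ℕ) : ℤ) ^ p - 1) : ℤ) :=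
    Int.dvd_coe_gcd (dvd_refl _) h4
  rw [h1] at h5
  have h6 : r ∣ 1 := by exact_mod_cast h5
  exact hr.one_lt.ne' (Nat.dvd_one.mp h6)

/-- the bound with an explicit rate -/
theorem rate (p : ℕ) (hp : p.Prime) :
    ∃ C : ℝ, 0 < C ∧ ∀ a : ℕ → ℤ, a 1 = 1 →
      (∀ n : ℕ, 2 ≤ n →
        a n = |a (n - 1) - ((Int.gcd (a (n - 1)) ((n : ℤ) ^ p - 1) : ℕ) : ℤ)|) →
      ∀ n n' : ℕ, 1 ≤ n → n < n' → a n = 0 → a n' = 0 → (∀ k : ℕ, n < k → k < n' → a k ≠ 0) →
        (n' ≤ (n + 1) ^ p - 1 + (n + 1)) ∧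
        (∀ r : ℕ, r.Prime → (r ∣ n' ∨ r ∣ ((n' + 1) ^ p - 1) / n') →
          2 * ((n' : ℝ) - n) ≤ (((n + 1) ^ p - 1 : ℕ) : ℝ) + r +
            C * ((((n + 1) ^ p - 1 : ℕ) : ℝ) / √(Real.log (((n + 1) ^ p - 1 : ℕ) : ℝ)))) ∧
        (Nat.Prime n' ∨ (n' : ℝ) - n ≤ 1 / 2 * (((n + 1) ^ p - 1 : ℕ) : ℝ) +
            C * ((((n + 1) ^ p - 1 : ℕ) : ℝ) / √(Real.log (((n + 1) ^ p - 1 : ℕ) : ℝ)))) := by
  obtain ⟨C₀, hC₀, hmain⟩ := main_rate 1 p (by norm_num)
  refine ⟨4 + C₀, by positivity, ?_⟩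
  intro a ha1 ha n n' hn hnn' han han' hne
  have hseg : Seg (fun k => (a k).natAbs) (fun k : ℕ => (k : ℤ) ^ p - 1) (n + 1) n' :=
    seg_of_zeros (V := fun k : ℕ => (k : ℤ) ^ p - 1) (by rw [ha1]; norm_num) ha (by omega)
      (by omega) (fun k h1 h2 => hne k (by omega) h2)
  have hpow1 : ∀ k : ℕ, 1 ≤ k → 1 ≤ k ^ p := fun k hk => Nat.one_le_pow _ _ hk
  have hVnat : ∀ k : ℕ, 1 ≤ k → ((k : ℕ) : ℤ) ^ p - 1 = ((k ^ p - 1 : ℕ) : ℤ) := by
    intro k hk
    rw [Nat.cast_sub (hpow1 k hk)]; push_cast; ring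
  have hstart : (a (n + 1)).natAbs = (n + 1) ^ p - 1 := by
    rw [ha (n + 1) (by omega), Nat.add_sub_cancel, han]
    simp only [Int.gcd_zero_left, zero_sub, abs_neg]
    rw [Nat.abs_cast, Int.natAbs_natCast]
    rw [hVnat (n + 1) (by omega), Int.natAbs_natCast]
  have hgood := good p hp n n' (fun k => (a k).natAbs) hseg
  have hXlow : n + 2 ≤ (n + 1) ^ p - 1 := by
    have h1 : (n + 1) ^ 2 ≤ (n + 1) ^ p := Nat.pow_le_pow_right (by omega) hp.two_le
    have h2 : n + 3 ≤ (n + 1) ^ 2 := by nlinarith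
    omega
  set X : ℕ := (n + 1) ^ p - 1 with hX
  have hX3 : (3 : ℝ) ≤ X := by
    have : 3 ≤ X := by omega
    exact_mod_cast this
  have hxf : (a n').natAbs = 0 := by rw [han']; rfl
  have hdec := decr hseg n' (by omega) le_rfl
  simp only [hxf, hstart] at hdec
  have hlen : n' ≤ X + (n + 1) := by omega
  obtain ⟨l, hsl, hle, htr, hl⟩ := hmain _ _ (n + 1) n' _ _ hgood X hX3 (by
    exact_mod_cast hlen)
  have hrun : ∀ k, l ≤ k → k ≤ n' → (a k).natAbs = n' - k := by
    intro k hk1 hk2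
    have h1 := hseg.run hsl le_rfl htr k hk1 hk2
    simp only [hxf] at h1
    omega
  have hdet := detect p n' l (fun k => (a k).natAbs) hle htr hrun
  set Y := (X : ℝ) / √(Real.log X) with hY
  have hY1 : 1 ≤ Y := rate_ge_one hX3
  have hx1r : ((a (n + 1)).natAbs : ℝ) = X := by rw [hstart]
  have hxl : ((a l).natAbs : ℝ) = (n' : ℝ) - l := by
    rw [hrun l le_rfl hle, Nat.cast_sub hle]
  simp only [hx1r, hxl] at hl
  push_cast at hl
  have hn'1 : 1 ≤ n' := by omega
  have hdvdn : n' ∣ (n' + 1) ^ p - 1 := by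
    have := Nat.sub_dvd_pow_sub_pow (n' + 1) 1 p
    simpa using this
  have fin : ∀ r : ℕ, r.Prime → (r ∣ n' ∨ r ∣ ((n' + 1) ^ p - 1) / n') →
      2 * ((n' : ℝ) - n) ≤ (X : ℝ) + r + (4 + C₀) * Y := by
    intro r hr hdvd0
    have hdvd : r ∣ (n' + 1) ^ p - 1 := by
      rcases hdvd0 with h | h
      · exact h.trans hdvdn
      · exact h.trans (Nat.div_dvd_of_dvd hdvdn)
    have h1 := hdet r hr (by
      rw [hVnat _ (by omega)]
      exact Int.natCast_dvd_natCast.mpr hdvd)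
    have h2 : (n' : ℝ) ≤ l + r := by
      have : n' ≤ l + r := by omega
      exact_mod_cast this
    nlinarith
  refine ⟨hlen, fin, ?_⟩
  by_cases h : Nat.Prime n'
  · exact Or.inl h
  · right
    have h1 := fin (Nat.minFac n') (Nat.minFac_prime (by omega)) (Or.inl (Nat.minFac_dvd _))
    have h2 : Nat.minFac n' ≤ Nat.sqrt n' := by
      rw [Nat.le_sqrt']
      exact Nat.minFac_sq_le_self (by omega) h
    have h3 : ((Nat.minFac n' : ℕ) : ℝ) ≤ ((Nat.sqrt n' : ℕ) : ℝ) := by exact_mod_cast h2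
    have h5 : ((Nat.sqrt n' : ℕ) : ℝ) ≤ √((n' : ℕ) : ℝ) := Real.nat_sqrt_le_real_sqrt
    have h6 : √((n' : ℕ) : ℝ) ≤ 3 * Y := by
      apply sqrt_le_rate hX3
      have h7 : n' ≤ 9 * X := by omega
      exact_mod_cast h7
    nlinarith

/-- Let `X = (n+1)^p - 1` be the starting value (hence the maximal possible length) of the descent
between the consecutive zeros `n < n'`. (1) For every prime `p` there is a constant `C` such that
for all consecutive zeros every prime factor `r` of `n'` or of `q_p(n') = ((n'+1)^p - 1)/n'`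
satisfies `r ≥ 2 (n'-n) - X - C X / √(log X)`, and `n'` is prime or
`n' - n ≤ X/2 + C X / √(log X)`. (2) Hence for every `ε > 0` and all `n ≥ n₀(p, ε)`: if
`n' - n ≥ (1/2 + ε) X` then `n'` is prime and `q_p(n')` has at most `p - 1` prime factors counted
with multiplicity; for `p = 2` both `n'` and `q_2(n') = n' + 2` are prime. -/
theorem result :
    ∀ p : ℕ, p.Prime →
    (∃ C : ℝ, 0 < C ∧ ∀ a : ℕ → ℤ, a 1 = 1 →
      (∀ n : ℕ, 2 ≤ n →
        a n = |a (n - 1) - ((Int.gcd (a (n - 1)) ((n : ℤ) ^ p - 1) : ℕ) : ℤ)|) →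
      ∀ n n' : ℕ, 1 ≤ n → n < n' → a n = 0 → a n' = 0 → (∀ k : ℕ, n < k → k < n' → a k ≠ 0) →
        (∀ r : ℕ, r.Prime → (r ∣ n' ∨ r ∣ ((n' + 1) ^ p - 1) / n') →
          2 * ((n' : ℝ) - n) ≤ (((n + 1) ^ p - 1 : ℕ) : ℝ) + r +
            C * ((((n + 1) ^ p - 1 : ℕ) : ℝ) / √(Real.log (((n + 1) ^ p - 1 : ℕ) : ℝ)))) ∧
        (Nat.Prime n' ∨ (n' : ℝ) - n ≤ 1 / 2 * (((n + 1) ^ p - 1 : ℕ) : ℝ) +
            C * ((((n + 1) ^ p - 1 : ℕ) : ℝ) / √(Real.log (((n + 1) ^ p - 1 : ℕ) : ℝ))))) ∧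
    (∀ ε : ℝ, 0 < ε → ∃ n₀ : ℕ, ∀ a : ℕ → ℤ, a 1 = 1 →
      (∀ n : ℕ, 2 ≤ n →
        a n = |a (n - 1) - ((Int.gcd (a (n - 1)) ((n : ℤ) ^ p - 1) : ℕ) : ℤ)|) →
      ∀ n n' : ℕ, n₀ ≤ n → n < n' → a n = 0 → a n' = 0 → (∀ k : ℕ, n < k → k < n' → a k ≠ 0) →
        (1 / 2 + ε) * (((n + 1) ^ p - 1 : ℕ) : ℝ) ≤ (n' : ℝ) - n →
        Nat.Prime n' ∧ (((n' + 1) ^ p - 1) / n').primeFactorsList.length ≤ p - 1 ∧
          (p = 2 → Nat.Prime (n' + 2))) := by
  intro p hp
  obtain ⟨C, hC, h⟩ := rate p hp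
  refine ⟨⟨C, hC, fun a ha1 ha n n' hn hnn' h1 h2 h3 =>
    (h a ha1 ha n n' hn hnn' h1 h2 h3).2⟩, ?_⟩
  intro ε hε
  have hlim : Filter.Tendsto (fun N : ℕ => √(Real.log N)) Filter.atTop Filter.atTop :=
    Real.tendsto_sqrt_atTop.comp (Real.tendsto_log_atTop.comp tendsto_natCast_atTop_atTop)
  obtain ⟨N₁, hN₁⟩ := (hlim.eventually_gt_atTop (C / ε)).exists_forall_of_atTop
  obtain ⟨N₂, hN₂⟩ := exists_nat_gt (2 ^ (p + 1) / ε ^ p + 1 / ε)
  refine ⟨max (max N₁ N₂) 1, ?_⟩
  intro a ha1 ha n n' hn hnn' han han' hne hlong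
  have hn1 : 1 ≤ n := (le_max_right _ _).trans hn
  obtain ⟨hlen, hfin, hpr⟩ := h a ha1 ha n n' hn1 hnn' han han' hne
  have hXlow : n + 2 ≤ (n + 1) ^ p - 1 := by
    have h1 : (n + 1) ^ 2 ≤ (n + 1) ^ p := Nat.pow_le_pow_right (by omega) hp.two_le
    have h2 : n + 3 ≤ (n + 1) ^ 2 := by nlinarith
    omega
  set X : ℕ := (n + 1) ^ p - 1 with hX
  have hnX : n ≤ X := by omega
  have hX0 : (0 : ℝ) < X := by
    have : 0 < X := by omega
    exact_mod_cast this
  have h3 : C * ((X : ℝ) / √(Real.log X)) < ε * X := by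
    have h2 := hN₁ X ((((le_max_left _ _).trans (le_max_left _ _)).trans hn).trans hnX)
    have hs0 : 0 < √(Real.log X) := lt_trans (by positivity) h2
    rw [mul_div_assoc', div_lt_iff₀ hs0]
    rw [div_lt_iff₀ hε] at h2
    nlinarith
  have hXN : 2 ^ (p + 1) / ε ^ p + 1 / ε < (X : ℝ) := by
    refine hN₂.trans_le ?_
    have : N₂ ≤ X := (((le_max_right _ _).trans (le_max_left _ _)).trans hn).trans hnX
    exact_mod_cast this
  have hεX1 : 1 < ε * X := by
    have h1 : 0 < 2 ^ (p + 1) / ε ^ p := by positivity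
    have h2 : 1 / ε < (X : ℝ) := by linarith
    rw [div_lt_iff₀ hε] at h2
    linarith
  have hεX2 : 2 ^ (p + 1) < ε ^ p * X := by
    have h1 : 0 < 1 / ε := by positivity
    have h2 : 2 ^ (p + 1) / ε ^ p < (X : ℝ) := by linarith
    rw [div_lt_iff₀ (by positivity)] at h2
    linarith
  have hfin' : ∀ r : ℕ, r.Prime → r ∣ ((n' + 1) ^ p - 1) / n' → ε * X ≤ r := by
    intro r hr hrd
    have h4 := hfin r hr (Or.inr hrd)
    nlinarith
  have hprime : Nat.Prime n' := by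
    rcases hpr with h1 | h1
    · exact h1
    · exfalso
      nlinarith
  have hn'0 : 0 < n' := by omega
  have hdvdn : n' ∣ (n' + 1) ^ p - 1 := by
    have := Nat.sub_dvd_pow_sub_pow (n' + 1) 1 p
    simpa using this
  set q := ((n' + 1) ^ p - 1) / n' with hq
  have hqn : q * n' = (n' + 1) ^ p - 1 := Nat.div_mul_cancel hdvdn
  have hbig : n' + 2 ≤ q := by
    have h1 : (n' + 1) ^ 2 ≤ (n' + 1) ^ p := Nat.pow_le_pow_right (by omega) hp.two_le
    have h2 : (n' + 2) * n' ≤ q * n' := by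
      rw [hqn]
      have : (n' + 2) * n' + 1 = (n' + 1) ^ 2 := by ring
      omega
    exact Nat.le_of_mul_le_mul_right h2 hn'0
  have hlenq : q.primeFactorsList.length ≤ p - 1 := by
    by_contra hcon
    push Not at hcon
    have hcon' : p ≤ q.primeFactorsList.length := by omega
    have hq0 : q ≠ 0 := by omega
    have hpow : Nat.minFac q ^ q.primeFactorsList.length ≤ q := by
      conv_rhs => rw [← Nat.prod_primeFactorsList hq0]
      apply List.pow_card_le_prod
      intro x hx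
      exact Nat.minFac_le_of_dvd (Nat.prime_of_mem_primeFactorsList hx).two_le
        (Nat.dvd_of_mem_primeFactorsList hx)
    have hpow2 : Nat.minFac q ^ p ≤ q :=
      (Nat.pow_le_pow_right (Nat.minFac_pos q) hcon').trans hpow
    have hmin : ε * X ≤ (Nat.minFac q : ℝ) :=
      hfin' _ (Nat.minFac_prime (by omega)) (Nat.minFac_dvd q)
    have h4 : (ε * X) ^ p ≤ (q : ℝ) := by
      calc (ε * X) ^ p ≤ (Nat.minFac q : ℝ) ^ p :=
            pow_le_pow_left₀ (by positivity) hmin p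
        _ ≤ q := by exact_mod_cast hpow2
    have h5 : (q : ℝ) * n' ≤ (2 * X) ^ p := by
      have h6 : q * n' ≤ (2 * X) ^ p := by
        rw [hqn]
        exact (Nat.sub_le _ _).trans (Nat.pow_le_pow_left (by omega) p)
      exact_mod_cast h6
    have h7 : 1 / 2 * (X : ℝ) ≤ n' := by
      have : (0 : ℝ) ≤ n := Nat.cast_nonneg _
      nlinarith
    have h8 : (ε * X) ^ p * (1 / 2 * X) ≤ (2 * X) ^ p :=
      (mul_le_mul h4 h7 (by positivity) (Nat.cast_nonneg _)).trans h5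
    rw [mul_pow, mul_pow] at h8
    have hXp : (0 : ℝ) < (X : ℝ) ^ p := by positivity
    have h9 : (ε ^ p * X) * (X : ℝ) ^ p ≤ 2 ^ (p + 1) * (X : ℝ) ^ p := by
      have e1 : (ε ^ p * X) * (X : ℝ) ^ p = 2 * (ε ^ p * (X : ℝ) ^ p * (1 / 2 * X)) := by ring
      have e2 : (2 : ℝ) ^ (p + 1) * (X : ℝ) ^ p = 2 * (2 ^ p * (X : ℝ) ^ p) := by ring
      rw [e1, e2]
      linarith
    have h10 := le_of_mul_le_mul_right h9 hXp
    linarith
  refine ⟨hprime, hlenq, ?_⟩
  intro hp2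
  have hq2 : q = n' + 2 := by
    have h1 : q * n' = (n' + 2) * n' := by
      rw [hqn, hp2]
      have : (n' + 1) ^ 2 = (n' + 2) * n' + 1 := by ring
      omega
    exact Nat.eq_of_mul_eq_mul_right hn'0 h1
  rw [← hq2]
  rw [hp2] at hlenq
  have h1 : q.primeFactorsList.length = 1 := by
    have h2 : q.primeFactorsList.length ≠ 0 := by
      intro h3
      rw [List.length_eq_zero_iff, Nat.primeFactorsList_eq_nil] at h3
      omega
    omega
  obtain ⟨x, hx⟩ := List.length_eq_one_iff.mp h1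
  have h2 := Nat.prod_primeFactorsList (n := q) (by omega)
  rw [hx, List.prod_singleton] at h2
  rw [← h2]
  exact Nat.prime_of_mem_primeFactorsList (by rw [hx]; simp)

end Pool.Agent.Results.MP_e7655a_nt.HalfDescent
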